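import Pool.Agent.Lib_helper52.LQ.Defs
import Pool.Agent.Lib_helper49.LQ.N2
import Pool.Agent.Lib_helper58.LQ.LB

set_option autoImplicit false

namespace Pool.Agent.LQ

open MeasureTheory ENNReal Set Filter Topology Pool.Agent.EPS Pool.Agent.YG

variable {d : ℕ}

theorem va_aux_meas (i : Fin d) : Measurable (fun x : Eu d => x i) := by
  fun_prop

theorem va_aux_int {μ : Measure (Eu d)} [IsProbabilityMeasure μ] {f : Eu d → ℝ}
    (hf : Measurable f) (C : ℝ) (hC : ∀ᵐ x ∂μ, |f x| ≤ C) : Integrable f μ := by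
  refine Integrable.of_bound hf.aestronglyMeasurable C ?_
  filter_upwards [hC] with x hx
  rwa [Real.norm_eq_abs]

theorem va_aux_sp {L : ℝ} {β : Measure (Eu d)} (hβ : Sp L β) (i : Fin d) :
    ∀ᵐ x ∂β, |x i| ≤ L := by
  filter_upwards [hβ.2] with x hx
  exact hx i

/-- the integrals of the tilts -/
theorem va_aux_tl {L : ℝ} {β : Measure (Eu d)} [IsProbabilityMeasure β] {κ : Eu d → ℝ}
    (hκ : Measurable κ) (hM : ∀ x, |κ x| ≤ 2 * L) (hL : 0 ≤ L) {s : ℝ} {g : Eu d → ℝ}
    (hg : Measurable g) (C : ℝ) (hC : ∀ᵐ x ∂β, |g x| ≤ C)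
    (h1 : ∀ x, 0 ≤ 1 + s * κ x) :
    ∫ x, g x ∂(tl β (fun y => 1 + s * κ y)) = ∫ x, g x ∂β + s * ∫ x, κ x * g x ∂β := by
  rw [tl_int β _ (by fun_prop) h1 g]
  have e1 : Integrable g β := va_aux_int hg C hC
  have e2 : Integrable (fun x => κ x * g x) β := by
    refine va_aux_int (hκ.mul hg) (2 * L * C) ?_
    filter_upwards [hC] with x hx
    rw [abs_mul]
    exact mul_le_mul (hM x) hx (abs_nonneg _) (by linarith)
  have e3 : (fun x => (1 + s * κ x) * g x) = fun x => g x + s * (κ x * g x) := by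
    funext x; ring
  rw [e3, integral_add e1 (e2.const_mul s), integral_const_mul]

/-- variances after the tilts: `∫ g d(tl β f) = ∫ f g dβ` -/
theorem va_tl (L : ℝ) (hL : 0 < L) (β : Measure (Eu d)) (hβ : Sp L β) (j : Fin d) (s : ℝ)
    (hs : 0 < s) (hsL : s * (2 * L) ≤ 1 / 2) :
    (∀ i, va (tl β (fun y => 1 + s * co L β j y)) i +
      va (tl β (fun y => 1 - s * co L β j y)) i ≤ 2 * va β i) ∧
    va (tl β (fun y => 1 + s * co L β j y)) j + va (tl β (fun y => 1 - s * co L β j y)) j ≤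
      2 * va β j - 2 * s ^ 2 * va β j ^ 2 := by
  have : IsProbabilityMeasure β := hβ.1.1
  obtain ⟨hm, hb, h0, -⟩ := co_bd L hL.le β j
  obtain ⟨p1, p2, -, -, -, -⟩ := tl_pm β (co L β j) hm (2 * L) s hb hs.le hsL h0
  have p2' : ∀ x, 0 ≤ 1 + (-s) * co L β j x := fun x => by
    have := p2 x
    linarith
  have hfun : (fun y => 1 - s * co L β j y) = fun y => 1 + (-s) * co L β j y := by
    funext y; ring
  have hkey : ∀ i, va (tl β (fun y => 1 + s * co L β j y)) i +
      va (tl β (fun y => 1 - s * co L β j y)) i =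
      2 * va β i - 2 * s ^ 2 * (∫ x, co L β j x * x i ∂β) ^ 2 := by
    intro i
    have b1 : ∀ᵐ x ∂β, |x i| ≤ L := va_aux_sp hβ i
    have b2 : ∀ᵐ x ∂β, |(x i) ^ 2| ≤ L ^ 2 := by
      filter_upwards [b1] with x hx
      rw [abs_pow]
      exact pow_le_pow_left₀ (abs_nonneg _) hx 2
    have m1 : Measurable (fun x : Eu d => x i) := va_aux_meas i
    have m2 : Measurable (fun x : Eu d => (x i) ^ 2) := m1.pow_const 2
    unfold va
    rw [hfun, va_aux_tl hm hb hL.le m1 L b1 p1, va_aux_tl hm hb hL.le m2 (L ^ 2) b2 p1,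
      va_aux_tl hm hb hL.le m1 L b1 p2', va_aux_tl hm hb hL.le m2 (L ^ 2) b2 p2']
    ring
  refine ⟨fun i => ?_, ?_⟩
  · rw [hkey i]
    have : 0 ≤ 2 * s ^ 2 * (∫ x, co L β j x * x i ∂β) ^ 2 := by positivity
    linarith
  · rw [hkey j]
    have b1 : ∀ᵐ x ∂β, |x j| ≤ L := va_aux_sp hβ j
    have m1 : Measurable (fun x : Eu d => x j) := va_aux_meas j
    have hcl : ∀ᵐ x ∂β, cl L j x = x j := by
      filter_upwards [b1] with x hx
      unfold cl
      rw [abs_le] at hx
      rw [min_eq_right hx.2, max_eq_right hx.1]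
    have hint : ∫ y, cl L j y ∂β = ∫ y, y j ∂β := integral_congr_ae hcl
    have hva : ∫ x, co L β j x * x j ∂β = va β j := by
      have e1 : ∫ x, co L β j x * x j ∂β = ∫ x, ((x j) ^ 2 - (∫ y, y j ∂β) * x j) ∂β := by
        apply integral_congr_ae
        filter_upwards [hcl] with x hx
        unfold co
        rw [hx, hint]
        ring
      have i1 : Integrable (fun x : Eu d => x j) β := va_aux_int m1 L b1
      have i2 : Integrable (fun x : Eu d => (x j) ^ 2) β := by
        refine va_aux_int (m1.pow_const 2) (L ^ 2) ?_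
        filter_upwards [b1] with x hx
        rw [abs_pow]
        exact pow_le_pow_left₀ (abs_nonneg _) hx 2
      rw [e1, integral_sub i2 (i1.const_mul _), integral_const_mul]
      unfold va
      ring
    rw [hva]

theorem va_nn (L : ℝ) (hL : 0 < L) (β : Measure (Eu d)) (hβ : Sp L β) (i : Fin d) :
    0 ≤ va β i ∧ va β i ≤ L ^ 2 := by
  have : IsProbabilityMeasure β := hβ.1.1
  have b1 : ∀ᵐ x ∂β, |x i| ≤ L := va_aux_sp hβ i
  have m1 : Measurable (fun x : Eu d => x i) := va_aux_meas i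
  have b2 : ∀ᵐ x ∂β, (x i) ^ 2 ≤ L ^ 2 := by
    filter_upwards [b1] with x hx
    rw [← sq_abs]
    exact pow_le_pow_left₀ (abs_nonneg _) hx 2
  have i1 : Integrable (fun x : Eu d => x i) β := va_aux_int m1 L b1
  have i2 : Integrable (fun x : Eu d => (x i) ^ 2) β := by
    refine va_aux_int (m1.pow_const 2) (L ^ 2) ?_
    filter_upwards [b2] with x hx
    rwa [abs_of_nonneg (sq_nonneg _)]
  constructor
  · set m : ℝ := ∫ x, x i ∂β with hmd
    have h1 : 0 ≤ ∫ x, (x i - m) ^ 2 ∂β := integral_nonneg fun x => sq_nonneg _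
    have h2 : ∫ x, (x i - m) ^ 2 ∂β = va β i := by
      have e : (fun x : Eu d => (x i - m) ^ 2) = fun x => (x i) ^ 2 - (2 * m) * x i + m ^ 2 := by
        funext x; ring
      have i3 : Integrable (fun x : Eu d => (x i) ^ 2 - (2 * m) * x i) β := i2.sub (i1.const_mul _)
      rw [e, integral_add i3 (integrable_const _), integral_sub i2 (i1.const_mul _),
        integral_const_mul, integral_const]
      unfold va
      simp only [probReal_univ, smul_eq_mul, one_mul]
      rw [← hmd]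
      ring
    rwa [h2] at h1
  · unfold va
    have h1 : ∫ x, (x i) ^ 2 ∂β ≤ L ^ 2 := by
      calc ∫ x, (x i) ^ 2 ∂β ≤ ∫ _x, L ^ 2 ∂β :=
            integral_mono_ae i2 (integrable_const _) b2
        _ = L ^ 2 := by simp
    have h2 : 0 ≤ (∫ x, x i ∂β) ^ 2 := sq_nonneg _
    linarith

end Pool.Agent.LQ
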